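import Pool.Agent.Lib.MP_0bba66_co.Final

set_option autoImplicit false

namespace Pool.Agent.Lib.MP_0bba66_co

open Finset Matrix

/-- trace of the square of a real symmetric matrix -/
lemma trace_sq_eigen {n : Type} [Fintype n] [DecidableEq n] (G : Matrix n n ℝ)
    (hG : G.IsHermitian) : trace (G * G) = ∑ i, hG.eigenvalues i ^ 2 := by
  have h := hG.spectral_theorem
  set U := hG.eigenvectorUnitary with hU
  set D : Matrix n n ℝ := diagonal (RCLike.ofReal ∘ hG.eigenvalues) with hD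
  have h2 : G * G = (U : Matrix n n ℝ) * (D * D) * (star U : Matrix n n ℝ) := by
    conv_lhs => rw [h]
    rw [← map_mul, Unitary.conjStarAlgAut_apply]
  rw [h2, Matrix.trace_mul_comm, ← Matrix.mul_assoc]
  have h3 : (star U : Matrix n n ℝ) * (U : Matrix n n ℝ) = 1 := Unitary.coe_star_mul_self U
  rw [h3, Matrix.one_mul, hD, diagonal_mul_diagonal, trace_diagonal]
  refine Finset.sum_congr rfl fun i _ => ?_
  simp [sq]

/-- `(tr G)² ≤ rank G · tr(G²)` for real symmetric `G`. -/
lemma trace_sq_le_rank {n : Type} [Fintype n] [DecidableEq n] (G : Matrix n n ℝ)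
    (hG : G.IsHermitian) : trace G ^ 2 ≤ (G.rank : ℝ) * trace (G * G) := by
  classical
  rw [trace_sq_eigen G hG, hG.trace_eq_sum_eigenvalues, hG.rank_eq_card_non_zero_eigs]
  simp only [RCLike.ofReal_real_eq_id, id_eq]
  set s : Finset n := Finset.univ.filter (fun i => hG.eigenvalues i ≠ 0) with hs
  have h1 : ∑ i, hG.eigenvalues i = ∑ i ∈ s, hG.eigenvalues i := by
    rw [hs, Finset.sum_filter_ne_zero]
  have h2 : ∑ i ∈ s, hG.eigenvalues i ^ 2 ≤ ∑ i, hG.eigenvalues i ^ 2 :=
    Finset.sum_le_sum_of_subset_of_nonneg (Finset.subset_univ _) fun i _ _ => sq_nonneg _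
  have h3 : Fintype.card {i // hG.eigenvalues i ≠ 0} = s.card := by
    rw [Fintype.card_subtype]
  rw [h1, h3]
  calc (∑ i ∈ s, hG.eigenvalues i) ^ 2 ≤ (s.card : ℝ) * ∑ i ∈ s, hG.eigenvalues i ^ 2 :=
        sq_sum_le_card_mul_sum_sq
    _ ≤ _ := mul_le_mul_of_nonneg_left h2 (Nat.cast_nonneg _)

section Fam

variable {V α β : Type} [Fintype V] [DecidableEq V] [Fintype α] [DecidableEq α]
  [Fintype β] [DecidableEq β]

/-- Ten members with `A`-parts `P v` and `B`-parts `Q v`, parameters `(3t, 10t)`. -/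
structure Fam (t : ℕ) (P : V → Finset α) (Q : V → Finset β) : Prop where
  tpos : 0 < t
  hV : Fintype.card V = 10
  hα : Fintype.card α = 10 * t
  hβ : Fintype.card β = 10 * t
  hP : ∀ v, (P v).card = 3 * t
  hQ : ∀ v, (Q v).card = 3 * t
  hx : ∀ u v, u ≠ v → Xor (P u ∩ P v).Nonempty (Q u ∩ Q v).Nonempty

variable {t : ℕ} {P : V → Finset α} {Q : V → Finset β}

lemma Fam.symm (h : Fam t P Q) : Fam t Q P where
  tpos := h.tpos
  hV := h.hV
  hα := h.hβ
  hβ := h.hα
  hP := h.hQ
  hQ := h.hP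
  hx := fun u v huv => (xor_comm _ _).mp (h.hx u v huv)

/-- the members containing an element -/
def K (P : V → Finset α) (a : α) : Finset V := Finset.univ.filter (fun v => a ∈ P v)

lemma mem_K {P : V → Finset α} {a : α} {v : V} : v ∈ K P a ↔ a ∈ P v := by simp [K]

lemma Fam.card_K_le (h : Fam t P Q) (a : α) : (K P a).card ≤ 3 := by
  have hdis : ∀ u ∈ K P a, ∀ v ∈ K P a, u ≠ v → Disjoint (Q u) (Q v) := by
    intro u hu v hv huv
    rw [mem_K] at hu hv
    rcases h.hx u v huv with ⟨_, h2⟩ | ⟨_, h1⟩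
    · rw [Finset.disjoint_iff_inter_eq_empty]
      exact Finset.not_nonempty_iff_eq_empty.mp h2
    · exact absurd ⟨a, Finset.mem_inter.mpr ⟨hu, hv⟩⟩ h1
  have h1 : ((K P a).biUnion Q).card = ∑ v ∈ K P a, (Q v).card := Finset.card_biUnion hdis
  have h2 : ((K P a).biUnion Q).card ≤ 10 * t := by
    rw [← h.hβ]
    exact Finset.card_le_univ _
  rw [h1, Finset.sum_congr rfl fun v _ => h.hQ v, Finset.sum_const, smul_eq_mul] at h2
  have ht := h.tpos
  by_contra hcon
  push Not at hcon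
  have : 4 * (3 * t) ≤ (K P a).card * (3 * t) := Nat.mul_le_mul_right _ hcon
  omega

lemma sum_card_K (P : V → Finset α) : ∑ a, (K P a).card = ∑ v, (P v).card := by
  have h1 : ∀ a, (K P a).card = ∑ v, if a ∈ P v then 1 else 0 := by
    intro a
    rw [K, Finset.card_filter]
  have h2 : ∀ v, (P v).card = ∑ a, if a ∈ P v then 1 else 0 := by
    intro v
    rw [← Finset.card_filter]
    congr 1
    ext a
    simp
  simp only [h1, h2]
  rw [Finset.sum_comm]

lemma Fam.card_K (h : Fam t P Q) (a : α) : (K P a).card = 3 := by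
  have h1 := sum_card_K P
  rw [Finset.sum_congr rfl fun v _ => h.hP v, Finset.sum_const, Finset.card_univ, h.hV,
    smul_eq_mul] at h1
  by_contra hcon
  have hlt : (K P a).card < 3 := lt_of_le_of_ne (h.card_K_le a) hcon
  have h2 : ∑ a, (K P a).card < ∑ _a : α, 3 :=
    Finset.sum_lt_sum (fun a _ => h.card_K_le a) ⟨a, Finset.mem_univ _, hlt⟩
  rw [Finset.sum_const, Finset.card_univ, h.hα, smul_eq_mul] at h2
  omega

lemma Fam.card_inter_le (h : Fam t P Q) (a : α) (b : β) : (K P a ∩ K Q b).card ≤ 1 := by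
  by_contra hcon
  push Not at hcon
  obtain ⟨u, hu, v, hv, huv⟩ := Finset.one_lt_card.mp hcon
  rw [Finset.mem_inter, mem_K, mem_K] at hu hv
  rcases h.hx u v huv with ⟨_, h2⟩ | ⟨_, h1⟩
  · exact h2 ⟨b, Finset.mem_inter.mpr ⟨hu.2, hv.2⟩⟩
  · exact h1 ⟨a, Finset.mem_inter.mpr ⟨hu.1, hv.1⟩⟩

/-- the disjointness matrix -/
def Z (P : V → Finset α) (Q : V → Finset β) (a : α) (b : β) : ℕ :=
  1 - (K P a ∩ K Q b).card

lemma Fam.Z_add (h : Fam t P Q) (a : α) (b : β) : Z P Q a b + (K P a ∩ K Q b).card = 1 := by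
  have := h.card_inter_le a b
  unfold Z
  omega

lemma Z_symm (a : α) (b : β) : Z P Q a b = Z Q P b a := by
  unfold Z
  rw [Finset.inter_comm]

lemma Fam.Z_le (h : Fam t P Q) (a : α) (b : β) : Z P Q a b ≤ 1 := by
  have := h.Z_add a b
  omega

lemma Fam.sum_Z (h : Fam t P Q) (a : α) : ∑ b, Z P Q a b = t := by
  have h1 : ∑ b, (K P a ∩ K Q b).card = 9 * t := by
    have e1 : ∀ b, (K P a ∩ K Q b).card = ∑ v ∈ K P a, if b ∈ Q v then 1 else 0 := by
      intro b
      rw [← Finset.card_filter]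
      congr 1
      ext v
      rw [Finset.mem_inter, Finset.mem_filter, mem_K, mem_K]
    simp only [e1]
    rw [Finset.sum_comm]
    have e2 : ∀ v ∈ K P a, (∑ b, if b ∈ Q v then 1 else 0) = 3 * t := by
      intro v _
      rw [← Finset.card_filter, ← h.hQ v]
      congr 1
      ext b
      simp
    rw [Finset.sum_congr rfl e2, Finset.sum_const, h.card_K a, smul_eq_mul]
    ring
  have h2 : ∑ b, (Z P Q a b + (K P a ∩ K Q b).card) = 10 * t := by
    rw [Finset.sum_congr rfl fun b _ => h.Z_add a b, Finset.sum_const, Finset.card_univ, h.hβ]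
    simp
  rw [Finset.sum_add_distrib, h1] at h2
  omega

lemma Fam.sum_Z' (h : Fam t P Q) (b : β) : ∑ a, Z P Q a b = t := by
  have := h.symm.sum_Z b
  rw [← this]
  exact Finset.sum_congr rfl fun a _ => Z_symm a b

/-- number of common disjoint partners -/
def G (P : V → Finset α) (Q : V → Finset β) (a a' : α) : ℕ := ∑ b, Z P Q a b * Z P Q a' b

lemma G_symm (a a' : α) : G P Q a a' = G P Q a' a :=
  Finset.sum_congr rfl fun b _ => mul_comm _ _

lemma Fam.G_le (h : Fam t P Q) (a a' : α) : G P Q a a' ≤ t := by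
  rw [← h.sum_Z a]
  refine Finset.sum_le_sum fun b _ => ?_
  calc Z P Q a b * Z P Q a' b ≤ Z P Q a b * 1 := Nat.mul_le_mul_left _ (h.Z_le a' b)
    _ = Z P Q a b := mul_one _

lemma Fam.G_self (h : Fam t P Q) (a : α) : G P Q a a = t := by
  rw [← h.sum_Z a]
  refine Finset.sum_congr rfl fun b _ => ?_
  have := h.Z_le a b
  interval_cases Z P Q a b <;> rfl

lemma Fam.sum_G (h : Fam t P Q) (a : α) : ∑ a', G P Q a a' = t * t := by
  unfold G
  rw [Finset.sum_comm]
  simp only [← Finset.mul_sum]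
  rw [Finset.sum_congr rfl fun b _ => by rw [h.sum_Z' b], ← Finset.sum_mul, h.sum_Z a]

/-- real incidence matrix -/
noncomputable def MB (Q : V → Finset β) : Matrix V β ℝ := fun v b => if b ∈ Q v then 1 else 0

noncomputable def Zm (P : V → Finset α) (Q : V → Finset β) : Matrix α β ℝ :=
  fun a b => (Z P Q a b : ℝ)

noncomputable def Gm (P : V → Finset α) (Q : V → Finset β) : Matrix α α ℝ :=
  fun a a' => (G P Q a a' : ℝ)

/-- the left factor of `Zm` -/
noncomputable def WA (P : V → Finset α) : Matrix α V ℝ :=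
  fun a v => (1 / 3 : ℝ) - if a ∈ P v then 1 else 0

lemma Gm_eq : Gm P Q = Zm P Q * (Zm P Q)ᵀ := by
  ext a a'
  rw [Matrix.mul_apply]
  simp only [Gm, G, Zm, Matrix.transpose_apply]
  push_cast
  rfl

lemma Fam.Zm_eq (h : Fam t P Q) : Zm P Q = WA P * MB Q := by
  ext a b
  rw [Matrix.mul_apply]
  have e1 : ∀ v : V, WA P a v * MB Q v b =
      (1 / 3) * (if v ∈ K Q b then 1 else 0) - (if v ∈ K P a ∩ K Q b then 1 else 0) := by
    intro v
    simp only [WA, MB, Finset.mem_inter, mem_K]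
    by_cases h1 : a ∈ P v <;> by_cases h2 : b ∈ Q v <;> simp [h1, h2]
  simp only [e1]
  rw [Finset.sum_sub_distrib, ← Finset.mul_sum]
  simp only [Finset.sum_ite_mem, Finset.univ_inter, Finset.sum_const, nsmul_eq_mul, mul_one]
  rw [h.symm.card_K b]
  have h2 : (Z P Q a b : ℝ) + ((K P a ∩ K Q b).card : ℝ) = 1 := by
    exact_mod_cast h.Z_add a b
  simp only [Zm]
  push_cast
  linarith

lemma Fam.rank_facts (h : Fam t P Q) :
    10 ≤ (MB Q).rank ∧ ∀ a a', G P Q a a' = 0 ∨ G P Q a a' = t := by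
  have hG : (Gm P Q).IsHermitian := by
    ext a a'
    simp only [Matrix.conjTranspose_apply, Gm, star_trivial]
    rw [G_symm]
  have h1 := trace_sq_le_rank (Gm P Q) hG
  have htr : trace (Gm P Q) = 10 * (t : ℝ) ^ 2 := by
    have : trace (Gm P Q) = ∑ a, ((G P Q a a : ℕ) : ℝ) := rfl
    rw [this, Finset.sum_congr rfl fun a _ => by rw [h.G_self a], Finset.sum_const,
      Finset.card_univ, h.hα]
    simp only [nsmul_eq_mul]
    push_cast
    ring
  have hrk1 : (Gm P Q).rank ≤ (Zm P Q).rank := by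
    rw [Gm_eq]
    exact Matrix.rank_mul_le_left _ _
  have hrk2 : (Zm P Q).rank ≤ (MB Q).rank := by
    rw [h.Zm_eq]
    exact Matrix.rank_mul_le_right _ _
  have hrk3 : (MB Q).rank ≤ 10 := by
    rw [← h.hV]
    exact Matrix.rank_le_card_height _
  have htr2 : trace (Gm P Q * Gm P Q) = ∑ a, ∑ a', (G P Q a a' : ℝ) ^ 2 := by
    unfold Matrix.trace
    refine Finset.sum_congr rfl fun a _ => ?_
    rw [Matrix.diag_apply, Matrix.mul_apply]
    refine Finset.sum_congr rfl fun a' _ => ?_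
    simp only [Gm]
    rw [G_symm a' a, sq]
  have hsumG : ∑ a, ∑ a', (t : ℝ) * (G P Q a a' : ℝ) = 10 * (t : ℝ) ^ 4 := by
    have : ∀ a, ∑ a', (t : ℝ) * (G P Q a a' : ℝ) = (t : ℝ) ^ 3 := by
      intro a
      rw [← Finset.mul_sum]
      have := h.sum_G a
      have h2 : ∑ a', (G P Q a a' : ℝ) = (t : ℝ) * t := by exact_mod_cast this
      rw [h2]
      ring
    simp only [this]
    rw [Finset.sum_const, Finset.card_univ, h.hα]
    simp only [nsmul_eq_mul]
    push_cast
    ring
  have hle : ∀ a a', (G P Q a a' : ℝ) ^ 2 ≤ (t : ℝ) * (G P Q a a' : ℝ) := by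
    intro a a'
    have h2 : (G P Q a a' : ℝ) ≤ t := by exact_mod_cast h.G_le a a'
    have h3 : (0 : ℝ) ≤ (G P Q a a' : ℝ) := Nat.cast_nonneg _
    nlinarith
  have hle2 : trace (Gm P Q * Gm P Q) ≤ 10 * (t : ℝ) ^ 4 := by
    rw [htr2, ← hsumG]
    exact Finset.sum_le_sum fun a _ => Finset.sum_le_sum fun a' _ => hle a a'
  have htpos : (0 : ℝ) < (t : ℝ) := by exact_mod_cast h.tpos
  have ht4 : (0 : ℝ) < (t : ℝ) ^ 4 := by positivity
  rw [htr] at h1
  have h4 : (0 : ℝ) ≤ trace (Gm P Q * Gm P Q) := by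
    rw [htr2]
    exact Finset.sum_nonneg fun a _ => Finset.sum_nonneg fun a' _ => sq_nonneg _
  have hrkR : ((Gm P Q).rank : ℝ) ≤ 10 := by exact_mod_cast hrk1.trans (hrk2.trans hrk3)
  have h5 : 10 * (t : ℝ) ^ 4 ≤ trace (Gm P Q * Gm P Q) := by
    have : (10 * (t : ℝ) ^ 2) ^ 2 ≤ 10 * trace (Gm P Q * Gm P Q) :=
      h1.trans (mul_le_mul_of_nonneg_right hrkR h4)
    nlinarith
  have h6 : (10 : ℝ) ≤ ((Gm P Q).rank : ℝ) := by
    by_contra hcon
    push Not at hcon
    have h7 : (10 * (t : ℝ) ^ 2) ^ 2 ≤ ((Gm P Q).rank : ℝ) * (10 * (t : ℝ) ^ 4) :=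
      h1.trans (mul_le_mul_of_nonneg_left hle2 (Nat.cast_nonneg _))
    nlinarith
  refine ⟨?_, ?_⟩
  · have : 10 ≤ (Gm P Q).rank := by exact_mod_cast h6
    exact this.trans (hrk1.trans hrk2)
  · have heq : ∑ a, ∑ a', ((t : ℝ) * (G P Q a a' : ℝ) - (G P Q a a' : ℝ) ^ 2) = 0 := by
      simp only [Finset.sum_sub_distrib]
      rw [hsumG, ← htr2]
      linarith
    intro a a'
    have e1 := (Finset.sum_eq_zero_iff_of_nonneg (fun a _ =>
      Finset.sum_nonneg fun a' _ => sub_nonneg.mpr (hle a a'))).mp heq a (Finset.mem_univ _)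
    have e2 := (Finset.sum_eq_zero_iff_of_nonneg (fun a' _ => sub_nonneg.mpr (hle a a'))).mp e1 a'
      (Finset.mem_univ _)
    have e3 : (G P Q a a' : ℝ) * ((t : ℝ) - (G P Q a a' : ℝ)) = 0 := by
      rw [← e2]
      ring
    rcases mul_eq_zero.mp e3 with e | e
    · left
      exact_mod_cast e
    · right
      have : (G P Q a a' : ℝ) = t := by linarith
      exact_mod_cast this

lemma Fam.inj (h : Fam t P Q) (x : V → ℝ) (hx0 : (MB Q)ᵀ *ᵥ x = 0) : x = 0 := by
  have h1 := h.rank_facts.1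
  have h2 : (MB Q)ᵀ.rank = 10 := by
    rw [Matrix.rank_transpose]
    refine le_antisymm ?_ h1
    rw [← h.hV]
    exact Matrix.rank_le_card_height _
  have h3 := LinearMap.finrank_range_add_finrank_ker ((MB Q)ᵀ.mulVecLin)
  have h4 : Module.finrank ℝ (LinearMap.range ((MB Q)ᵀ.mulVecLin)) = 10 := h2
  rw [h4, Module.finrank_fintype_fun_eq_card, h.hV] at h3
  have h5 : Module.finrank ℝ (LinearMap.ker ((MB Q)ᵀ.mulVecLin)) = 0 := by omega
  have h6 : LinearMap.ker ((MB Q)ᵀ.mulVecLin) = ⊥ := Submodule.finrank_eq_zero.mp h5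
  have h7 : x ∈ LinearMap.ker ((MB Q)ᵀ.mulVecLin) := by
    rw [LinearMap.mem_ker, Matrix.mulVecLin_apply]
    exact hx0
  rw [h6] at h7
  exact (Submodule.mem_bot ℝ).mp h7

lemma Fam.rows_eq (h : Fam t P Q) {a a' : α} (hG : G P Q a a' = t) (b : β) :
    Z P Q a b = Z P Q a' b := by
  have key : ∀ a a' : α, G P Q a a' = t → ∀ b, Z P Q a b ≤ Z P Q a' b := by
    intro a a' hG b
    by_contra hcon
    push Not at hcon
    have h1 := h.Z_le a b
    have h0 : Z P Q a' b = 0 := by omega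
    have h2 : G P Q a a' < ∑ b, Z P Q a b := by
      refine Finset.sum_lt_sum (fun b _ => ?_) ⟨b, Finset.mem_univ _, ?_⟩
      · calc Z P Q a b * Z P Q a' b ≤ Z P Q a b * 1 := Nat.mul_le_mul_left _ (h.Z_le a' b)
          _ = Z P Q a b := mul_one _
      · rw [h0, mul_zero]
        omega
    rw [h.sum_Z a, hG] at h2
    exact lt_irrefl _ h2
  exact le_antisymm (key a a' hG b) (key a' a (by rw [G_symm]; exact hG) b)

lemma Fam.K_eq_iff (h : Fam t P Q) (a a' : α) : K P a = K P a' ↔ G P Q a a' = t := by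
  constructor
  · intro he
    rw [← h.G_self a]
    unfold G Z
    rw [he]
  · intro hG
    have hrow := h.rows_eq hG
    have h0 := h.inj (fun v => (if v ∈ K P a then (1 : ℝ) else 0) - (if v ∈ K P a' then 1 else 0)) ?_
    · ext v
      have hv := congrFun h0 v
      simp only [Pi.zero_apply] at hv
      by_cases h1 : v ∈ K P a <;> by_cases h2 : v ∈ K P a' <;> simp [h1, h2] at hv ⊢
    · ext b
      simp only [Matrix.mulVec, dotProduct, Matrix.transpose_apply, Pi.zero_apply]
      have e1 : ∀ v : V, MB Q v b * ((if v ∈ K P a then (1 : ℝ) else 0) -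
          (if v ∈ K P a' then 1 else 0)) = (if v ∈ K P a ∩ K Q b then 1 else 0) -
          (if v ∈ K P a' ∩ K Q b then 1 else 0) := by
        intro v
        simp only [MB, Finset.mem_inter, mem_K]
        by_cases h1 : a ∈ P v <;> by_cases h2 : b ∈ Q v <;> by_cases h3 : a' ∈ P v <;>
          simp [h1, h2, h3]
      simp only [e1]
      rw [Finset.sum_sub_distrib]
      simp only [Finset.sum_ite_mem, Finset.univ_inter, Finset.sum_const, nsmul_eq_mul, mul_one]
      have h1 := h.Z_add a b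
      have h2 := h.Z_add a' b
      rw [hrow b] at h1
      have h3 : (K P a ∩ K Q b).card = (K P a' ∩ K Q b).card := by omega
      rw [h3, sub_self]

/-- every class of equal triples has exactly `t` elements -/
lemma Fam.class_card (h : Fam t P Q) (a : α) :
    (Finset.univ.filter (fun a' => K P a' = K P a)).card = t := by
  have h1 := h.sum_G a
  have h2 : ∀ a', G P Q a a' = if K P a' = K P a then t else 0 := by
    intro a'
    by_cases he : K P a' = K P a
    · rw [if_pos he]
      exact (h.K_eq_iff a a').mp he.symm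
    · rw [if_neg he]
      rcases h.rank_facts.2 a a' with h0 | h0
      · exact h0
      · exact absurd ((h.K_eq_iff a a').mpr h0).symm he
  simp only [h2] at h1
  rw [← Finset.sum_filter, Finset.sum_const, smul_eq_mul] at h1
  exact Nat.eq_of_mul_eq_mul_right h.tpos h1

lemma Fam.deg (h : Fam t P Q) (v : V) :
    ((Finset.univ.image (K P)).filter (fun T => v ∈ T)).card = 3 := by
  have h1 : (P v).card = ∑ T ∈ (Finset.univ.image (K P)).filter (fun T => v ∈ T),
      ((P v).filter (fun a => K P a = T)).card := by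
    refine Finset.card_eq_sum_card_fiberwise ?_
    intro a ha
    have ha' : a ∈ P v := ha
    simp only [Finset.coe_filter, Finset.mem_image, Finset.mem_univ, true_and,
      Set.mem_setOf_eq]
    exact ⟨⟨a, rfl⟩, mem_K.mpr ha'⟩
  have h2 : ∀ T ∈ (Finset.univ.image (K P)).filter (fun T => v ∈ T),
      ((P v).filter (fun a => K P a = T)).card = t := by
    intro T hT
    rw [Finset.mem_filter, Finset.mem_image] at hT
    obtain ⟨⟨a, _, rfl⟩, hv⟩ := hT
    rw [← h.class_card a]
    congr 1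
    ext a'
    simp only [Finset.mem_filter, Finset.mem_univ, true_and, and_iff_right_iff_imp]
    intro he
    rw [← he] at hv
    exact mem_K.mp hv
  rw [Finset.sum_congr rfl h2, Finset.sum_const, smul_eq_mul, h.hP v] at h1
  exact (Nat.eq_of_mul_eq_mul_right h.tpos h1).symm

/-- The collapsed system. -/
lemma Fam.sys (h : Fam t P Q) : Sys (Finset.univ.image (K P)) (Finset.univ.image (K Q)) where
  card10 := h.hV
  cA := fun T hT => by
    rw [Finset.mem_image] at hT
    obtain ⟨a, _, rfl⟩ := hT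
    exact h.card_K a
  cB := fun T hT => by
    rw [Finset.mem_image] at hT
    obtain ⟨a, _, rfl⟩ := hT
    exact h.symm.card_K a
  dA := h.deg
  dB := h.symm.deg
  meet := fun T hT S hS => by
    rw [Finset.mem_image] at hT hS
    obtain ⟨a, _, rfl⟩ := hT
    obtain ⟨b, _, rfl⟩ := hS
    exact h.card_inter_le a b
  cov := fun u v huv => by
    rcases h.hx u v huv with ⟨⟨a, ha⟩, _⟩ | ⟨⟨b, hb⟩, _⟩
    · left
      rw [Finset.mem_inter] at ha
      exact ⟨K P a, Finset.mem_image_of_mem _ (Finset.mem_univ _), mem_K.mpr ha.1,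
        mem_K.mpr ha.2⟩
    · right
      rw [Finset.mem_inter] at hb
      exact ⟨K Q b, Finset.mem_image_of_mem _ (Finset.mem_univ _), mem_K.mpr hb.1,
        mem_K.mpr hb.2⟩

/-- No ten members with parameters `(3t, 10t)`. -/
theorem no_fam (h : Fam t P Q) : False := no_sys h.sys

end Fam

end Pool.Agent.Lib.MP_0bba66_co
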