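import Mathlib

set_option autoImplicit false

namespace Pool.Agent.Lib.MP_0bba66_co

open Finset

/-- A pair of systems of triples on a ten-element set: every point is in exactly three triples of
each system, a triple of `A` and a triple of `B` meet in at most one point, and every pair of
points is covered by a triple of `A` or of `B`. -/
structure Sys {V : Type} [Fintype V] [DecidableEq V] (A B : Finset (Finset V)) : Prop where
  card10 : Fintype.card V = 10
  cA : ∀ T ∈ A, T.card = 3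
  cB : ∀ T ∈ B, T.card = 3
  dA : ∀ v : V, (A.filter (fun T => v ∈ T)).card = 3
  dB : ∀ v : V, (B.filter (fun T => v ∈ T)).card = 3
  meet : ∀ T ∈ A, ∀ S ∈ B, (T ∩ S).card ≤ 1
  cov : ∀ u v : V, u ≠ v → (∃ T ∈ A, u ∈ T ∧ v ∈ T) ∨ (∃ S ∈ B, u ∈ S ∧ v ∈ S)

section

variable {V : Type} [Fintype V] [DecidableEq V] {A B : Finset (Finset V)}

lemma Sys.symm (h : Sys A B) : Sys B A where
  card10 := h.card10
  cA := h.cB
  cB := h.cA
  dA := h.dB
  dB := h.dA
  meet := fun T hT S hS => by rw [Finset.inter_comm]; exact h.meet S hS T hT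
  cov := fun u v huv => (h.cov u v huv).symm

/-- double counting -/
lemma sum_inter (A : Finset (Finset V)) (X : Finset V) :
    ∑ T ∈ A, (T ∩ X).card = ∑ v ∈ X, (A.filter (fun T => v ∈ T)).card := by
  have h1 : ∀ T : Finset V, (T ∩ X).card = ∑ v ∈ X, if v ∈ T then 1 else 0 := by
    intro T
    rw [Finset.inter_comm, ← Finset.filter_mem_eq_inter, Finset.card_filter]
  simp only [h1]
  rw [Finset.sum_comm]
  refine Finset.sum_congr rfl fun v _ => ?_
  rw [Finset.card_filter]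

lemma Sys.cardA (h : Sys A B) : A.card = 10 := by
  have h1 := sum_inter A (Finset.univ : Finset V)
  have h2 : ∑ T ∈ A, (T ∩ (Finset.univ : Finset V)).card = ∑ T ∈ A, 3 :=
    Finset.sum_congr rfl fun T hT => by rw [Finset.inter_univ, h.cA T hT]
  have h3 : ∑ v ∈ (Finset.univ : Finset V), (A.filter (fun T => v ∈ T)).card = ∑ v : V, 3 :=
    Finset.sum_congr rfl fun v _ => h.dA v
  rw [h2, h3] at h1
  simp only [Finset.sum_const, smul_eq_mul, Finset.card_univ, h.card10] at h1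
  omega

/-- every triple of `A` is disjoint from exactly one triple of `B` -/
lemma Sys.card_disjoint (h : Sys A B) {T : Finset V} (hT : T ∈ A) :
    (B.filter (fun S => Disjoint T S)).card = 1 := by
  have h1 := sum_inter B T
  have h2 : ∑ v ∈ T, (B.filter (fun S => v ∈ S)).card = 9 := by
    rw [Finset.sum_congr rfl fun v _ => h.dB v, Finset.sum_const, h.cA T hT]
    rfl
  rw [h2] at h1
  have h3 : ∀ S ∈ B, (S ∩ T).card = if Disjoint T S then 0 else 1 := by
    intro S hS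
    have hle := h.meet T hT S hS
    rw [Finset.inter_comm] at hle
    by_cases hd : Disjoint T S
    · rw [if_pos hd, Finset.card_eq_zero, Finset.inter_comm]
      exact Finset.disjoint_iff_inter_eq_empty.mp hd
    · rw [if_neg hd]
      have : (S ∩ T).card ≠ 0 := by
        rw [Ne, Finset.card_eq_zero]
        intro he
        exact hd (Finset.disjoint_iff_inter_eq_empty.mpr (by rw [Finset.inter_comm]; exact he))
      omega
  rw [Finset.sum_congr rfl h3] at h1
  have h4 : (B.filter (fun S => ¬ Disjoint T S)).card = 9 := by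
    rw [Finset.card_filter, ← h1]
    refine Finset.sum_congr rfl fun S _ => ?_
    by_cases hd : Disjoint T S <;> simp [hd]
  have h5 := Finset.card_filter_add_card_filter_not (s := B) (fun S => Disjoint T S)
  rw [h4, h.symm.cardA] at h5
  omega

lemma Sys.exists_mate (h : Sys A B) {T : Finset V} (hT : T ∈ A) :
    ∃ S ∈ B, Disjoint T S ∧ ∀ S' ∈ B, Disjoint T S' → S' = S := by
  obtain ⟨S, hS⟩ := Finset.card_eq_one.mp (h.card_disjoint hT)
  have hmem : ∀ S', S' ∈ B.filter (fun S => Disjoint T S) ↔ S' = S := by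
    intro S'
    rw [hS, Finset.mem_singleton]
  have h1 := (hmem S).mpr rfl
  rw [Finset.mem_filter] at h1
  exact ⟨S, h1.1, h1.2, fun S' hS' hd => (hmem S').mp (Finset.mem_filter.mpr ⟨hS', hd⟩)⟩

/-- the mate of a triple -/
noncomputable def mate (B : Finset (Finset V)) (T : Finset V) : Finset V :=
  if h : ∃ S ∈ B, Disjoint T S then h.choose else ∅

lemma Sys.mate_spec (h : Sys A B) {T : Finset V} (hT : T ∈ A) :
    mate B T ∈ B ∧ Disjoint T (mate B T) := by
  obtain ⟨S, hS, hd, _⟩ := h.exists_mate hT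
  have hex : ∃ S ∈ B, Disjoint T S := ⟨S, hS, hd⟩
  unfold mate
  rw [dif_pos hex]
  exact hex.choose_spec

lemma Sys.eq_mate (h : Sys A B) {T S : Finset V} (hT : T ∈ A) (hS : S ∈ B)
    (hd : Disjoint T S) : S = mate B T := by
  obtain ⟨S0, _, _, hu⟩ := h.exists_mate hT
  obtain ⟨h1, h2⟩ := h.mate_spec hT
  rw [hu S hS hd, hu _ h1 h2]

/-- distinct triples have intersecting cross mates -/
lemma Sys.inter_mate (h : Sys A B) {T T' : Finset V} (hT : T ∈ A) (hT' : T' ∈ A) (hne : T ≠ T') :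
    (T ∩ mate B T').card = 1 := by
  obtain ⟨h1, h2⟩ := h.mate_spec hT'
  have hle := h.meet T hT _ h1
  have hne0 : (T ∩ mate B T').card ≠ 0 := by
    rw [Ne, Finset.card_eq_zero]
    intro he
    have hd : Disjoint T (mate B T') := Finset.disjoint_iff_inter_eq_empty.mpr he
    -- the mate is disjoint from both T and T'
    have e1 := h.symm.eq_mate h1 hT hd.symm
    have e2 := h.symm.eq_mate h1 hT' h2.symm
    exact hne (e1.trans e2.symm)
  omega

/-- The matrix trick: for `u ≠ v` exactly one triple `T ∋ u` of `A` has `v ∈ mate T`. -/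
lemma Sys.count_mate (h : Sys A B) {u v : V} (huv : u ≠ v) :
    (A.filter (fun T => u ∈ T ∧ v ∈ mate B T)).card = 1 := by
  classical
  let M : Matrix {T // T ∈ A} V ℚ := fun T x => if x ∈ T.1 then 1 else 0
  let N : Matrix V {T // T ∈ A} ℚ := fun x T => 1 / 3 - if x ∈ mate B T.1 then 1 else 0
  have hMN : M * N = 1 := by
    ext T T'
    rw [Matrix.mul_apply]
    have e1 : ∑ x, M T x * N x T' = (T.1.card : ℚ) / 3 - ((T.1 ∩ mate B T'.1).card : ℚ) := by
      have : ∀ x, M T x * N x T' = (1 / 3) * (if x ∈ T.1 then 1 else 0) -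
          (if x ∈ T.1 ∩ mate B T'.1 then 1 else 0) := by
        intro x
        simp only [M, N, Finset.mem_inter]
        by_cases h1 : x ∈ T.1 <;> by_cases h2 : x ∈ mate B T'.1 <;> simp [h1, h2]
      simp only [this]
      rw [Finset.sum_sub_distrib, ← Finset.mul_sum]
      simp only [Finset.sum_ite_mem, Finset.univ_inter, Finset.sum_const, nsmul_eq_mul, mul_one]
      ring
    rw [e1, h.cA T.1 T.2, Matrix.one_apply]
    by_cases hTT : T = T'
    · subst hTT
      have := (h.mate_spec T.2).2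
      rw [Finset.disjoint_iff_inter_eq_empty.mp this]
      simp
    · rw [if_neg hTT, h.inter_mate T.2 T'.2 (fun e => hTT (Subtype.ext e))]
      norm_num
  have hcard : Fintype.card V = Fintype.card {T // T ∈ A} := by
    rw [h.card10, Fintype.card_coe, h.cardA]
  have hNM : N * M = 1 := (Matrix.mul_eq_one_comm_of_card_eq _ _ _ hcard).mpr hMN
  have h1 : (N * M) v u = 0 := by
    rw [hNM, Matrix.one_apply, if_neg huv.symm]
  rw [Matrix.mul_apply] at h1
  have h2 : ∑ T : {T // T ∈ A}, N v T * M T u =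
      ∑ T ∈ A, ((1 / 3 : ℚ) * (if u ∈ T then 1 else 0) -
        (if u ∈ T ∧ v ∈ mate B T then 1 else 0)) := by
    rw [← Finset.sum_coe_sort A]
    refine Finset.sum_congr rfl fun T _ => ?_
    simp only [M, N]
    by_cases h1 : u ∈ T.1 <;> by_cases h2 : v ∈ mate B T.1 <;> simp [h1, h2]
  rw [h2, Finset.sum_sub_distrib, ← Finset.mul_sum] at h1
  rw [← Finset.sum_filter, ← Finset.sum_filter] at h1
  simp only [Finset.sum_const, nsmul_eq_mul, mul_one] at h1
  rw [h.dA u] at h1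
  have h3 : ((A.filter (fun T => u ∈ T ∧ v ∈ mate B T)).card : ℚ) = 1 := by
    push_cast at h1
    linarith
  exact_mod_cast h3

/-- no four points are pairwise joined by triples of `B` -/
lemma Sys.noK4 (h : Sys A B) (Q : Finset V) (hQ : Q.card = 4)
    (hcl : ∀ x ∈ Q, ∀ y ∈ Q, x ≠ y → ∃ S ∈ B, x ∈ S ∧ y ∈ S) : False := by
  have h1 := sum_inter A Q
  rw [Finset.sum_congr rfl fun v _ => h.dA v, Finset.sum_const, hQ] at h1
  have h2 : ∑ T ∈ A, (T ∩ Q).card ≤ ∑ T ∈ A, 1 := by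
    refine Finset.sum_le_sum fun T hT => ?_
    by_contra hcon
    push Not at hcon
    obtain ⟨x, hx, y, hy, hxy⟩ := Finset.one_lt_card.mp hcon
    rw [Finset.mem_inter] at hx hy
    obtain ⟨S, hS, hxS, hyS⟩ := hcl x hx.2 y hy.2 hxy
    have h3 := h.meet T hT S hS
    have h4 : 1 < (T ∩ S).card := Finset.one_lt_card.mpr
      ⟨x, Finset.mem_inter.mpr ⟨hx.1, hxS⟩, y, Finset.mem_inter.mpr ⟨hy.1, hyS⟩, hxy⟩
    omega
  rw [h1, Finset.sum_const, h.cardA] at h2
  simp at h2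

/-- pairs are not covered by both systems -/
lemma Sys.excl (h : Sys A B) {u v : V} (huv : u ≠ v) {T S : Finset V} (hT : T ∈ A) (hS : S ∈ B)
    (h1 : u ∈ T) (h2 : v ∈ T) (h3 : u ∈ S) (h4 : v ∈ S) : False := by
  have h5 := h.meet T hT S hS
  have h6 : 1 < (T ∩ S).card := Finset.one_lt_card.mpr
    ⟨u, Finset.mem_inter.mpr ⟨h1, h3⟩, v, Finset.mem_inter.mpr ⟨h2, h4⟩, huv⟩
  omega

/-- three distinct triples at a point are all triples at that point -/
lemma Sys.complete (h : Sys A B) {v : V} {T1 T2 T3 : Finset V} (h1 : T1 ∈ A) (h2 : T2 ∈ A)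
    (h3 : T3 ∈ A) (v1 : v ∈ T1) (v2 : v ∈ T2) (v3 : v ∈ T3) (h12 : T1 ≠ T2) (h13 : T1 ≠ T3)
    (h23 : T2 ≠ T3) {T : Finset V} (hT : T ∈ A) (hv : v ∈ T) : T = T1 ∨ T = T2 ∨ T = T3 := by
  have hsub : ({T1, T2, T3} : Finset (Finset V)) ⊆ A.filter (fun T => v ∈ T) := by
    intro X hX
    simp only [Finset.mem_insert, Finset.mem_singleton] at hX
    rw [Finset.mem_filter]
    rcases hX with rfl | rfl | rfl
    · exact ⟨h1, v1⟩
    · exact ⟨h2, v2⟩
    · exact ⟨h3, v3⟩
  have hc : ({T1, T2, T3} : Finset (Finset V)).card = 3 := by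
    rw [Finset.card_eq_three]
    exact ⟨T1, T2, T3, h12, h13, h23, rfl⟩
  have heq := Finset.eq_of_subset_of_card_le hsub (by rw [hc, h.dA v])
  have hm : T ∈ A.filter (fun T => v ∈ T) := Finset.mem_filter.mpr ⟨hT, hv⟩
  rw [← heq] at hm
  simpa using hm

/-- If `{v,p,q}`, `{v,p,r}`, `{v,q,s}` are triples of `A` then `r, s` lie in a common triple
of `B`. -/
lemma Sys.singles (h : Sys A B) {v p q r s : V} (h1 : {v, p, q} ∈ A) (h2 : {v, p, r} ∈ A)
    (h3 : {v, q, s} ∈ A) (h12 : ({v, p, r} : Finset V) ≠ {v, p, q})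
    (h13 : ({v, q, s} : Finset V) ≠ {v, p, q}) : ∃ S ∈ B, r ∈ S ∧ s ∈ S := by
  obtain ⟨hm, hd⟩ := h.mate_spec h1
  have hv : v ∉ mate B {v, p, q} := Finset.disjoint_left.mp hd (by simp)
  have hp : p ∉ mate B {v, p, q} := Finset.disjoint_left.mp hd (by simp)
  have hq : q ∉ mate B {v, p, q} := Finset.disjoint_left.mp hd (by simp)
  refine ⟨mate B {v, p, q}, hm, ?_, ?_⟩
  · have hc := h.inter_mate h2 h1 h12
    obtain ⟨y, hy⟩ := Finset.card_pos.mp (by rw [hc]; exact Nat.one_pos)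
    rw [Finset.mem_inter] at hy
    obtain ⟨hy1, hy2⟩ := hy
    simp only [Finset.mem_insert, Finset.mem_singleton] at hy1
    rcases hy1 with rfl | rfl | rfl
    · exact absurd hy2 hv
    · exact absurd hy2 hp
    · exact hy2
  · have hc := h.inter_mate h3 h1 h13
    obtain ⟨y, hy⟩ := Finset.card_pos.mp (by rw [hc]; exact Nat.one_pos)
    rw [Finset.mem_inter] at hy
    obtain ⟨hy1, hy2⟩ := hy
    simp only [Finset.mem_insert, Finset.mem_singleton] at hy1
    rcases hy1 with rfl | rfl | rfl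
    · exact absurd hy2 hv
    · exact absurd hy2 hq
    · exact hy2

/-- the three triples at a point and their mates -/
lemma Sys.cols (h : Sys A B) (u : V) : ∃ T1 T2 T3 : Finset V, T1 ∈ A ∧ T2 ∈ A ∧ T3 ∈ A ∧
    u ∈ T1 ∧ u ∈ T2 ∧ u ∈ T3 ∧ T1 ≠ T2 ∧ T1 ≠ T3 ∧ T2 ≠ T3 ∧
    (∀ v, v ≠ u → v ∈ mate B T1 ∨ v ∈ mate B T2 ∨ v ∈ mate B T3) ∧
    Disjoint (mate B T1) (mate B T2) ∧ Disjoint (mate B T1) (mate B T3) ∧
    Disjoint (mate B T2) (mate B T3) := by
  obtain ⟨T1, T2, T3, h12, h13, h23, heq⟩ := Finset.card_eq_three.mp (h.dA u)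
  have hm : ∀ T, T ∈ A ∧ u ∈ T ↔ T = T1 ∨ T = T2 ∨ T = T3 := by
    intro T
    have h0 : T ∈ A.filter (fun T => u ∈ T) ↔ T = T1 ∨ T = T2 ∨ T = T3 := by
      rw [heq]
      simp
    rw [Finset.mem_filter] at h0
    exact h0
  have m1 := (hm T1).mpr (Or.inl rfl)
  have m2 := (hm T2).mpr (Or.inr (Or.inl rfl))
  have m3 := (hm T3).mpr (Or.inr (Or.inr rfl))
  have hu : ∀ T, T ∈ A → u ∈ T → u ∉ mate B T := fun T hT huT =>
    Finset.disjoint_left.mp (h.mate_spec hT).2 huT
  -- two distinct triples at `u` have disjoint mates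
  have hdis : ∀ T T', T ∈ A → T' ∈ A → u ∈ T → u ∈ T' → T ≠ T' →
      Disjoint (mate B T) (mate B T') := by
    intro T T' hT hT' huT huT' hne
    rw [Finset.disjoint_left]
    intro v hv hv'
    have hvu : u ≠ v := by
      rintro rfl
      exact hu T hT huT hv
    have hc := h.count_mate hvu
    obtain ⟨X, hX⟩ := Finset.card_eq_one.mp hc
    have e1 : T ∈ A.filter (fun T => u ∈ T ∧ v ∈ mate B T) :=
      Finset.mem_filter.mpr ⟨hT, huT, hv⟩
    have e2 : T' ∈ A.filter (fun T => u ∈ T ∧ v ∈ mate B T) :=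
      Finset.mem_filter.mpr ⟨hT', huT', hv'⟩
    rw [hX, Finset.mem_singleton] at e1 e2
    exact hne (e1.trans e2.symm)
  refine ⟨T1, T2, T3, m1.1, m2.1, m3.1, m1.2, m2.2, m3.2, h12, h13, h23, ?_,
    hdis _ _ m1.1 m2.1 m1.2 m2.2 h12, hdis _ _ m1.1 m3.1 m1.2 m3.2 h13,
    hdis _ _ m2.1 m3.1 m2.2 m3.2 h23⟩
  intro v hv
  have hc := h.count_mate hv.symm
  obtain ⟨X, hX⟩ := Finset.card_pos.mp (by rw [hc]; exact Nat.one_pos)
  rw [Finset.mem_filter] at hX
  rcases (hm X).mp ⟨hX.1, hX.2.1⟩ with rfl | rfl | rfl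
  · exact Or.inl hX.2.2
  · exact Or.inr (Or.inl hX.2.2)
  · exact Or.inr (Or.inr hX.2.2)

/-- a triple at `u` meets the two other mates in one point each -/
lemma Sys.shape (h : Sys A B) {u : V} {T1 T2 T3 : Finset V} (h1 : T1 ∈ A) (h2 : T2 ∈ A)
    (h3 : T3 ∈ A) (u1 : u ∈ T1) (u2 : u ∈ T2) (u3 : u ∈ T3) (h12 : T1 ≠ T2) (h13 : T1 ≠ T3)
    (hd : Disjoint (mate B T2) (mate B T3)) :
    ∃ p q, p ∈ mate B T2 ∧ q ∈ mate B T3 ∧ T1 = {u, p, q} := by
  obtain ⟨p, hp⟩ := Finset.card_pos.mp (by rw [h.inter_mate h1 h2 h12]; exact Nat.one_pos)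
  obtain ⟨q, hq⟩ := Finset.card_pos.mp (by rw [h.inter_mate h1 h3 h13]; exact Nat.one_pos)
  rw [Finset.mem_inter] at hp hq
  refine ⟨p, q, hp.2, hq.2, ?_⟩
  have hpu : u ≠ p := by
    rintro rfl
    exact Finset.disjoint_left.mp (h.mate_spec h2).2 u2 hp.2
  have hqu : u ≠ q := by
    rintro rfl
    exact Finset.disjoint_left.mp (h.mate_spec h3).2 u3 hq.2
  have hpq : p ≠ q := by
    rintro rfl
    exact Finset.disjoint_left.mp hd hp.2 hq.2
  symm
  refine Finset.eq_of_subset_of_card_le ?_ ?_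
  · intro y hy
    simp only [Finset.mem_insert, Finset.mem_singleton] at hy
    rcases hy with rfl | rfl | rfl
    · exact u1
    · exact hp.1
    · exact hq.1
  · rw [h.cA T1 h1]
    have : ({u, p, q} : Finset V).card = 3 := by
      rw [Finset.card_eq_three]
      exact ⟨u, p, q, hpu, hqu, hpq, rfl⟩
    omega

/-- points joined to `u` by a triple of `A` -/
def nb (A : Finset (Finset V)) (u : V) : Finset V :=
  Finset.univ.filter (fun v => v ≠ u ∧ ∃ T ∈ A, u ∈ T ∧ v ∈ T)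

lemma mem_nb {A : Finset (Finset V)} {u v : V} :
    v ∈ nb A u ↔ v ≠ u ∧ ∃ T ∈ A, u ∈ T ∧ v ∈ T := by
  simp [nb]

lemma Sys.card_nb (h : Sys A B) (u : V) : (nb A u).card + (nb B u).card = 9 := by
  have hd : Disjoint (nb A u) (nb B u) := by
    rw [Finset.disjoint_left]
    intro v hv hv'
    rw [mem_nb] at hv hv'
    obtain ⟨hvu, T, hT, h1, h2⟩ := hv
    obtain ⟨_, S, hS, h3, h4⟩ := hv'
    exact h.excl hvu.symm hT hS h1 h2 h3 h4
  rw [← Finset.card_union_of_disjoint hd]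
  have : nb A u ∪ nb B u = Finset.univ.erase u := by
    ext v
    rw [Finset.mem_union, mem_nb, mem_nb, Finset.mem_erase]
    constructor
    · rintro (⟨hv, _⟩ | ⟨hv, _⟩) <;> exact ⟨hv, Finset.mem_univ _⟩
    · rintro ⟨hv, _⟩
      rcases h.cov u v hv.symm with hc | hc
      · exact Or.inl ⟨hv, hc⟩
      · exact Or.inr ⟨hv, hc⟩
  rw [this, Finset.card_erase_of_mem (Finset.mem_univ _), Finset.card_univ, h.card10]

/-- structure at a point with four `A`-neighbours -/
def TwoCo (A B : Finset (Finset V)) (u : V) : Prop :=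
  ∃ z1 z2 w w' : V, {u, z1, z2} ∈ A ∧ {u, z1, w'} ∈ A ∧ {u, z2, w} ∈ A ∧
    (∃ R ∈ B, w ∈ R ∧ w' ∈ R) ∧ ∀ v ∈ nb A u, v = z1 ∨ v = z2 ∨ v = w ∨ v = w'

/-- structure at a point with five `A`-neighbours -/
def OneCo (A B : Finset (Finset V)) (u : V) : Prop :=
  ∃ x y1 y1' y2 y2' : V, ∃ C1 C2 C3 : Finset V,
    {u, y1, y2} ∈ A ∧ {u, x, y2'} ∈ A ∧ {u, x, y1'} ∈ A ∧ C1 ∈ B ∧ C2 ∈ B ∧ C3 ∈ B ∧
    x ∈ C1 ∧ y1 ∈ C2 ∧ y1' ∈ C2 ∧ y2 ∈ C3 ∧ y2' ∈ C3 ∧ u ∉ C1 ∧ u ∉ C2 ∧ u ∉ C3 ∧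
    Disjoint C1 C2 ∧ Disjoint C1 C3 ∧ Disjoint C2 C3 ∧
    ∀ v ∈ nb A u, v = x ∨ v = y1 ∨ v = y1' ∨ v = y2 ∨ v = y2'

lemma card_six {C1 C2 C3 : Finset V} {a1 b1 a2 b2 a3 b3 : V} (ha1 : a1 ∈ C1) (hb1 : b1 ∈ C1)
    (ha2 : a2 ∈ C2) (hb2 : b2 ∈ C2) (ha3 : a3 ∈ C3) (hb3 : b3 ∈ C3) (h12 : Disjoint C1 C2)
    (h13 : Disjoint C1 C3) (h23 : Disjoint C2 C3) :
    (({a1, b1} : Finset V) ∪ ({a2, b2} ∪ {a3, b3})).card =
      ({a1, b1} : Finset V).card + (({a2, b2} : Finset V).card + ({a3, b3} : Finset V).card) := by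
  have s1 : ({a1, b1} : Finset V) ⊆ C1 := by
    intro y hy
    simp only [Finset.mem_insert, Finset.mem_singleton] at hy
    rcases hy with rfl | rfl <;> assumption
  have s2 : ({a2, b2} : Finset V) ⊆ C2 := by
    intro y hy
    simp only [Finset.mem_insert, Finset.mem_singleton] at hy
    rcases hy with rfl | rfl <;> assumption
  have s3 : ({a3, b3} : Finset V) ⊆ C3 := by
    intro y hy
    simp only [Finset.mem_insert, Finset.mem_singleton] at hy
    rcases hy with rfl | rfl <;> assumption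
  have d23 : Disjoint ({a2, b2} : Finset V) {a3, b3} :=
    Finset.disjoint_of_subset_left s2 (Finset.disjoint_of_subset_right s3 h23)
  have d1 : Disjoint ({a1, b1} : Finset V) ({a2, b2} ∪ {a3, b3}) := by
    rw [Finset.disjoint_union_right]
    exact ⟨Finset.disjoint_of_subset_left s1 (Finset.disjoint_of_subset_right s2 h12),
      Finset.disjoint_of_subset_left s1 (Finset.disjoint_of_subset_right s3 h13)⟩
  rw [Finset.card_union_of_disjoint d1, Finset.card_union_of_disjoint d23]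

lemma card_pair_le (a b : V) : ({a, b} : Finset V).card ≤ 2 := Finset.card_le_two

lemma card_pair_eq_one {a b : V} (h : a = b) : ({a, b} : Finset V).card = 1 := by
  subst h
  simp

lemma card_pair_eq_two {a b : V} (h : a ≠ b) : ({a, b} : Finset V).card = 2 :=
  Finset.card_pair h

lemma Sys.structure_aux (h : Sys A B) {u : V} {C1 C2 C3 : Finset V}
    {e12 e13 e21 e23 e31 e32 : V} (h1 : {u, e12, e13} ∈ A) (t2 : {u, e21, e23} ∈ A)
    (t3 : {u, e31, e32} ∈ A)
    (hcomp : ∀ T ∈ A, u ∈ T → T = {u, e12, e13} ∨ T = {u, e21, e23} ∨ T = {u, e31, e32})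
    (c1 : C1 ∈ B) (c2 : C2 ∈ B) (c3 : C3 ∈ B) (m21 : e21 ∈ C1) (m31 : e31 ∈ C1)
    (m12 : e12 ∈ C2) (m32 : e32 ∈ C2) (m13 : e13 ∈ C3) (m23 : e23 ∈ C3)
    (uC1 : u ∉ C1) (uC2 : u ∉ C2) (uC3 : u ∉ C3) (d12 : Disjoint C1 C2) (d13 : Disjoint C1 C3)
    (d23 : Disjoint C2 C3) :
    ((nb A u).card = 4 ∧ TwoCo A B u) ∨ ((nb A u).card = 5 ∧ OneCo A B u) ∨
      (nb A u).card = 6 := by
  have p1 : ∀ y ∈ C1, y ≠ u := fun y hy e => uC1 (e ▸ hy)
  have p2 : ∀ y ∈ C2, y ≠ u := fun y hy e => uC2 (e ▸ hy)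
  have p3 : ∀ y ∈ C3, y ≠ u := fun y hy e => uC3 (e ▸ hy)
  have hnb : nb A u = {e21, e31} ∪ ({e12, e32} ∪ {e13, e23}) := by
    ext v
    rw [mem_nb]
    simp only [Finset.mem_union, Finset.mem_insert, Finset.mem_singleton]
    constructor
    · rintro ⟨hvu, T, hT, huT, hvT⟩
      rcases hcomp T hT huT with rfl | rfl | rfl
      · simp only [Finset.mem_insert, Finset.mem_singleton] at hvT
        rcases hvT with e | e | e
        · exact absurd e hvu
        · exact Or.inr (Or.inl (Or.inl e))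
        · exact Or.inr (Or.inr (Or.inl e))
      · simp only [Finset.mem_insert, Finset.mem_singleton] at hvT
        rcases hvT with e | e | e
        · exact absurd e hvu
        · exact Or.inl (Or.inl e)
        · exact Or.inr (Or.inr (Or.inr e))
      · simp only [Finset.mem_insert, Finset.mem_singleton] at hvT
        rcases hvT with e | e | e
        · exact absurd e hvu
        · exact Or.inl (Or.inr e)
        · exact Or.inr (Or.inl (Or.inr e))
    · rintro ((rfl | rfl) | (rfl | rfl) | (rfl | rfl))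
      · exact ⟨p1 _ m21, _, t2, by simp, by simp⟩
      · exact ⟨p1 _ m31, _, t3, by simp, by simp⟩
      · exact ⟨p2 _ m12, _, h1, by simp, by simp⟩
      · exact ⟨p2 _ m32, _, t3, by simp, by simp⟩
      · exact ⟨p3 _ m13, _, h1, by simp, by simp⟩
      · exact ⟨p3 _ m23, _, t2, by simp, by simp⟩
  have hcard := card_six m21 m31 m12 m32 m13 m23 d12 d13 d23
  rw [← hnb] at hcard
  have hmem : ∀ v ∈ nb A u, v = e21 ∨ v = e31 ∨ v = e12 ∨ v = e32 ∨ v = e13 ∨ v = e23 := by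
    intro v hv
    rw [hnb] at hv
    simp only [Finset.mem_union, Finset.mem_insert, Finset.mem_singleton] at hv
    rcases hv with (e | e) | (e | e) | (e | e) <;> simp [e]
  clear hnb hcomp
  by_cases k1 : e21 = e31 <;> by_cases k2 : e12 = e32 <;> by_cases k3 : e13 = e23
  · -- three coincidences : K4
    exfalso
    have n1 : u ≠ e21 := (p1 _ m21).symm
    have n2 : u ≠ e12 := (p2 _ m12).symm
    have n3 : u ≠ e13 := (p3 _ m13).symm
    have n12 : e21 ≠ e12 := fun e => Finset.disjoint_left.mp d12 m21 (e ▸ m12)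
    have n13 : e21 ≠ e13 := fun e => Finset.disjoint_left.mp d13 m21 (e ▸ m13)
    have n23 : e12 ≠ e13 := fun e => Finset.disjoint_left.mp d23 m12 (e ▸ m13)
    subst k1 k2 k3
    refine h.symm.noK4 {u, e21, e12, e13} ?_ ?_
    · rw [Finset.card_insert_of_notMem, Finset.card_insert_of_notMem, Finset.card_pair n23]
      · simp [n12, n13]
      · simp [n1, n2, n3]
    · intro x hx y hy hxy
      simp only [Finset.mem_insert, Finset.mem_singleton] at hx hy
      rcases hx with rfl | rfl | rfl | rfl <;> rcases hy with rfl | rfl | rfl | rfl <;>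
        first
        | exact absurd rfl hxy
        | (refine ⟨_, h1, ?_, ?_⟩ <;> (simp; done))
        | (refine ⟨_, t2, ?_, ?_⟩ <;> (simp; done))
        | (refine ⟨_, t3, ?_, ?_⟩ <;> (simp; done))
  · -- k1, k2
    left
    refine ⟨by rw [hcard, card_pair_eq_one k1, card_pair_eq_one k2, card_pair_eq_two k3], ?_⟩
    subst k1 k2
    refine ⟨e21, e12, e13, e23, t3, t2, h1, ⟨C3, c3, m13, m23⟩, ?_⟩
    intro v hv
    rcases hmem v hv with e | e | e | e | e | e <;> simp [e]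
  · -- k1, k3
    left
    refine ⟨by rw [hcard, card_pair_eq_one k1, card_pair_eq_two k2, card_pair_eq_one k3], ?_⟩
    subst k1 k3
    refine ⟨e21, e13, e12, e32, t2, t3, ?_, ⟨C2, c2, m12, m32⟩, ?_⟩
    · rw [Finset.pair_comm]
      exact h1
    intro v hv
    rcases hmem v hv with e | e | e | e | e | e <;> simp [e]
  · -- k1 only
    right; left
    refine ⟨by rw [hcard, card_pair_eq_one k1, card_pair_eq_two k2, card_pair_eq_two k3], ?_⟩
    subst k1
    refine ⟨e21, e12, e32, e13, e23, C1, C2, C3, h1, t2, t3, c1, c2, c3, m21, m12, m32,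
      m13, m23, uC1, uC2, uC3, d12, d13, d23, ?_⟩
    intro v hv
    rcases hmem v hv with e | e | e | e | e | e <;> simp [e]
  · -- k2, k3
    left
    refine ⟨by rw [hcard, card_pair_eq_two k1, card_pair_eq_one k2, card_pair_eq_one k3], ?_⟩
    subst k2 k3
    refine ⟨e12, e13, e21, e31, h1, ?_, ?_, ⟨C1, c1, m21, m31⟩, ?_⟩
    · rw [Finset.pair_comm]
      exact t3
    · rw [Finset.pair_comm]
      exact t2
    intro v hv
    rcases hmem v hv with e | e | e | e | e | e <;> simp [e]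
  · -- k2 only
    right; left
    refine ⟨by rw [hcard, card_pair_eq_two k1, card_pair_eq_one k2, card_pair_eq_two k3], ?_⟩
    subst k2
    refine ⟨e12, e21, e31, e23, e13, C2, C1, C3, t2, h1, ?_, c2, c1, c3, m12, m21, m31,
      m23, m13, uC2, uC1, uC3, d12.symm, d23, d13, ?_⟩
    · rw [Finset.pair_comm]
      exact t3
    intro v hv
    rcases hmem v hv with e | e | e | e | e | e <;> simp [e]
  · -- k3 only
    right; left
    refine ⟨by rw [hcard, card_pair_eq_two k1, card_pair_eq_two k2, card_pair_eq_one k3], ?_⟩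
    subst k3
    refine ⟨e13, e31, e21, e32, e12, C3, C1, C2, t3, ?_, ?_, c3, c1, c2, m13, m31, m21,
      m32, m12, uC3, uC1, uC2, d13.symm, d23.symm, d12, ?_⟩
    · rw [Finset.pair_comm]
      exact h1
    · rw [Finset.pair_comm]
      exact t2
    intro v hv
    rcases hmem v hv with e | e | e | e | e | e <;> simp [e]
  · right; right
    rw [hcard, card_pair_eq_two k1, card_pair_eq_two k2, card_pair_eq_two k3]

lemma Sys.structure (h : Sys A B) (u : V) :
    ((nb A u).card = 4 ∧ TwoCo A B u) ∨ ((nb A u).card = 5 ∧ OneCo A B u) ∨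
      (nb A u).card = 6 := by
  obtain ⟨T1, T2, T3, h1, h2, h3, u1, u2, u3, h12, h13, h23, _, d12, d13, d23⟩ := h.cols u
  have c1 := h.mate_spec h1
  have c2 := h.mate_spec h2
  have c3 := h.mate_spec h3
  have uC1 : u ∉ mate B T1 := Finset.disjoint_left.mp c1.2 u1
  have uC2 : u ∉ mate B T2 := Finset.disjoint_left.mp c2.2 u2
  have uC3 : u ∉ mate B T3 := Finset.disjoint_left.mp c3.2 u3
  obtain ⟨e12, e13, m12, m13, hT1⟩ := h.shape h1 h2 h3 u1 u2 u3 h12 h13 d23
  obtain ⟨e21, e23, m21, m23, hT2⟩ := h.shape h2 h1 h3 u2 u1 u3 h12.symm h23 d13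
  obtain ⟨e31, e32, m31, m32, hT3⟩ := h.shape h3 h1 h2 u3 u1 u2 h13.symm h23.symm d12
  have t1 : {u, e12, e13} ∈ A := hT1 ▸ h1
  have t2 : {u, e21, e23} ∈ A := hT2 ▸ h2
  have t3 : {u, e31, e32} ∈ A := hT3 ▸ h3
  have hcomp : ∀ T ∈ A, u ∈ T → T = {u, e12, e13} ∨ T = {u, e21, e23} ∨ T = {u, e31, e32} := by
    intro T hT huT
    rw [← hT1, ← hT2, ← hT3]
    exact h.complete h1 h2 h3 u1 u2 u3 h12 h13 h23 hT huT
  exact h.structure_aux t1 t2 t3 hcomp c1.1 c2.1 c3.1 m21 m31 m12 m32 m13 m23 uC1 uC2 uC3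
    d12 d13 d23

/-- every point has one of the two types -/
lemma Sys.types (h : Sys A B) (u : V) : (OneCo A B u ∧ TwoCo B A u) ∨ (OneCo B A u ∧ TwoCo A B u) := by
  have hc := h.card_nb u
  rcases h.structure u with ⟨c1, s1⟩ | ⟨c1, s1⟩ | c1 <;>
    rcases h.symm.structure u with ⟨c2, s2⟩ | ⟨c2, s2⟩ | c2
  · omega
  · exact Or.inr ⟨s2, s1⟩
  · omega
  · exact Or.inl ⟨s1, s2⟩
  · omega
  · omega
  · omega
  · omega
  · omega

end

end Pool.Agent.Lib.MP_0bba66_co
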