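import Pool.Agent.Lib.MP_0bba66_co.Core

set_option autoImplicit false

namespace Pool.Agent.Lib.MP_0bba66_co

open Finset

section Transport

variable {V W : Type} [Fintype V] [DecidableEq V] [Fintype W] [DecidableEq W]

/-- pull back a set system along a bijection -/
def pull (e : W ≃ V) (A : Finset (Finset V)) : Finset (Finset W) :=
  Finset.univ.filter (fun T => T.map e.toEmbedding ∈ A)

lemma mem_pull {e : W ≃ V} {A : Finset (Finset V)} {T : Finset W} :
    T ∈ pull e A ↔ T.map e.toEmbedding ∈ A := by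
  simp [pull]

lemma card_pull (e : W ≃ V) (A : Finset (Finset V)) (v : W) :
    ((pull e A).filter (fun T => v ∈ T)).card = (A.filter (fun T => e v ∈ T)).card := by
  refine Finset.card_bij (fun T _ => T.map e.toEmbedding) ?_ ?_ ?_
  · intro T hT
    rw [Finset.mem_filter, mem_pull] at hT
    rw [Finset.mem_filter]
    exact ⟨hT.1, Finset.mem_map_of_mem _ hT.2⟩
  · intro T _ T' _ h
    exact Finset.map_injective _ h
  · intro S hS
    rw [Finset.mem_filter] at hS
    refine ⟨S.map e.symm.toEmbedding, ?_, ?_⟩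
    · rw [Finset.mem_filter, mem_pull, Finset.map_map]
      refine ⟨?_, ?_⟩
      · convert hS.1 using 1
        ext y
        simp
      · rw [Finset.mem_map_equiv]
        simpa using hS.2
    · rw [Finset.map_map]
      ext y
      simp

lemma Sys.pull {A B : Finset (Finset V)} (h : Sys A B) (e : W ≃ V) :
    Sys (pull e A) (pull e B) where
  card10 := by rw [Fintype.card_congr e, h.card10]
  cA := fun T hT => by
    rw [mem_pull] at hT
    rw [← h.cA _ hT, Finset.card_map]
  cB := fun T hT => by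
    rw [mem_pull] at hT
    rw [← h.cB _ hT, Finset.card_map]
  dA := fun v => by rw [card_pull, h.dA]
  dB := fun v => by rw [card_pull, h.dB]
  meet := fun T hT S hS => by
    rw [mem_pull] at hT hS
    have := h.meet _ hT _ hS
    rwa [← Finset.map_inter, Finset.card_map] at this
  cov := fun u v huv => by
    rcases h.cov (e u) (e v) (fun h' => huv (e.injective h')) with ⟨T, hT, h1, h2⟩ | ⟨T, hT, h1, h2⟩
    · left
      refine ⟨T.map e.symm.toEmbedding, ?_, ?_, ?_⟩
      · rw [mem_pull, Finset.map_map]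
        convert hT using 1
        ext y
        simp
      · rw [Finset.mem_map_equiv]
        simpa using h1
      · rw [Finset.mem_map_equiv]
        simpa using h2
    · right
      refine ⟨T.map e.symm.toEmbedding, ?_, ?_, ?_⟩
      · rw [mem_pull, Finset.map_map]
        convert hT using 1
        ext y
        simp
      · rw [Finset.mem_map_equiv]
        simpa using h1
      · rw [Finset.mem_map_equiv]
        simpa using h2

end Transport

section Ten

variable {A B : Finset (Finset (Fin 10))}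

lemma memEq {B : Finset (Finset (Fin 10))} {S T : Finset (Fin 10)} (h : S ∈ B) (e : S = T) :
    T ∈ B := e ▸ h

/-- Case I -/
lemma caseI10 (h : Sys A B) (h1 : {0, 1, 2} ∈ B) (h2 : {0, 1, 4} ∈ B) (h3 : {0, 2, 3} ∈ B)
    (a1 : {0, 6, 8} ∈ A) (a2 : {0, 5, 9} ∈ A) (a3 : {0, 5, 7} ∈ A) (c1 : {5, 1, 2} ∈ B) :
    False := by
  -- the triples of `B` at 1 and at 2
  have comp1 : ∀ T ∈ B, (1 : Fin 10) ∈ T → T = {0, 1, 2} ∨ T = {0, 1, 4} ∨ T = {5, 1, 2} :=
    fun T hT hv => h.symm.complete h1 h2 c1 (by decide) (by decide) (by decide) (by decide)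
      (by decide) (by decide) hT hv
  have comp2 : ∀ T ∈ B, (2 : Fin 10) ∈ T → T = {0, 1, 2} ∨ T = {0, 2, 3} ∨ T = {5, 1, 2} :=
    fun T hT hv => h.symm.complete h1 h3 c1 (by decide) (by decide) (by decide) (by decide)
      (by decide) (by decide) hT hv
  obtain ⟨R1, hR1, m1, m1'⟩ := h.symm.singles (v := 1) (p := 0) (q := 2) (r := 4) (s := 5)
    (memEq h1 (by decide)) (memEq h2 (by decide)) (memEq c1 (by decide)) (by decide) (by decide)
  obtain ⟨R2, hR2, m2, m2'⟩ := h.symm.singles (v := 2) (p := 0) (q := 1) (r := 3) (s := 5)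
    (memEq h1 (by decide)) (memEq h3 (by decide)) (memEq c1 (by decide)) (by decide) (by decide)
  have e1 : ({0, 5, 9} : Finset (Fin 10)) ≠ R1 := fun e => by
    rw [← e] at m1; revert m1; decide
  have e2 : ({0, 5, 7} : Finset (Fin 10)) ≠ R1 := fun e => by
    rw [← e] at m1; revert m1; decide
  have comp5 : ∀ T ∈ A, (5 : Fin 10) ∈ T → T = {0, 5, 9} ∨ T = {0, 5, 7} ∨ T = R1 :=
    fun T hT hv => h.complete a2 a3 hR1 (by decide) (by decide) m1' (by decide) e1 e2 hT hv
  have hR : R2 = R1 := by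
    rcases comp5 R2 hR2 m2' with e | e | e
    · exfalso; rw [e] at m2; revert m2; decide
    · exfalso; rw [e] at m2; revert m2; decide
    · exact e
  rw [hR] at m2
  have hR1eq : R1 = {3, 4, 5} := by
    symm
    refine Finset.eq_of_subset_of_card_le ?_ (by rw [h.cA R1 hR1]; decide)
    intro y hy
    simp only [Finset.mem_insert, Finset.mem_singleton] at hy
    rcases hy with rfl | rfl | rfl <;> assumption
  rcases h.cov 5 6 (by decide) with ⟨T, hT, t5, t6⟩ | ⟨S, hS, s5, s6⟩
  · rcases comp5 T hT t5 with e | e | e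
    · rw [e] at t6; revert t6; decide
    · rw [e] at t6; revert t6; decide
    · rw [e, hR1eq] at t6; revert t6; decide
  · -- `S = {5, 6, q}`
    have hS3 := h.cB S hS
    have hex : ∃ q ∈ S, q ≠ 5 ∧ q ≠ 6 := by
      by_contra hcon
      push Not at hcon
      have : S ⊆ {5, 6} := by
        intro q hq
        by_cases h5 : q = 5
        · simp [h5]
        · simp [hcon q hq h5]
      have := Finset.card_le_card this
      rw [hS3] at this
      revert this
      decide
    obtain ⟨q, hq, q5, q6⟩ := hex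
    fin_cases q
    · exact h.excl (u := 0) (v := 5) (by decide) a2 hS (by decide) (by decide) hq s5
    · rcases comp1 S hS hq with e | e | e
      · rw [e] at s6; revert s6; decide
      · rw [e] at s6; revert s6; decide
      · rw [e] at s6; revert s6; decide
    · rcases comp2 S hS hq with e | e | e
      · rw [e] at s6; revert s6; decide
      · rw [e] at s6; revert s6; decide
      · rw [e] at s6; revert s6; decide
    · exact h.excl (u := 3) (v := 5) (by decide) hR1 hS m2 m1' hq s5
    · exact h.excl (u := 4) (v := 5) (by decide) hR1 hS m1 m1' hq s5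
    · exact q5 rfl
    · exact q6 rfl
    · exact h.excl (u := 7) (v := 5) (by decide) a3 hS (by decide) (by decide) hq s5
    · exact h.excl (u := 8) (v := 6) (by decide) a1 hS (by decide) (by decide) hq s6
    · exact h.excl (u := 9) (v := 5) (by decide) a2 hS (by decide) (by decide) hq s5

lemma four_options : ∀ T : Finset (Fin 10), T.card = 3 → 2 ∈ T → 0 ∉ T → 1 ∉ T → 3 ∉ T →
    8 ∉ T → 9 ∉ T → ¬ (4 ∈ T ∧ 5 ∈ T) → ¬ (6 ∈ T ∧ 7 ∈ T) →
    T = {2, 4, 6} ∨ T = {2, 4, 7} ∨ T = {2, 5, 6} ∨ T = {2, 5, 7} := by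
  decide +kernel

/-- Case II -/
lemma caseII10 (h : Sys A B) (h1 : {0, 1, 2} ∈ B) (h2 : {0, 1, 4} ∈ B) (h3 : {0, 2, 3} ∈ B)
    (a2 : {0, 5, 9} ∈ A) (a3 : {0, 5, 7} ∈ A) (c1 : {5, 1, 4} ∈ B)
    (c2 : {6, 7, 3} ∈ B) (c3 : {8, 9, 2} ∈ B) : False := by
  have comp1 : ∀ T ∈ B, (1 : Fin 10) ∈ T → T = {0, 1, 2} ∨ T = {0, 1, 4} ∨ T = {5, 1, 4} :=
    fun T hT hv => h.symm.complete h1 h2 c1 (by decide) (by decide) (by decide) (by decide)
      (by decide) (by decide) hT hv
  -- 1 and 7 are joined in `A`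
  obtain ⟨P, hP, p1, p7⟩ : ∃ T ∈ A, (1 : Fin 10) ∈ T ∧ (7 : Fin 10) ∈ T := by
    rcases h.cov 1 7 (by decide) with hc | ⟨S, hS, s1, s7⟩
    · exact hc
    · exfalso
      rcases comp1 S hS s1 with e | e | e <;> rw [e] at s7 <;> revert s7 <;> decide
  -- the triples of `A` at 2
  have hopt : ∀ T ∈ A, (2 : Fin 10) ∈ T →
      T = {2, 4, 6} ∨ T = {2, 4, 7} ∨ T = {2, 5, 6} ∨ T = {2, 5, 7} := by
    intro T hT h2T
    refine four_options T (h.cA T hT) h2T ?_ ?_ ?_ ?_ ?_ ?_ ?_
    · exact fun hh => h.excl (u := 2) (v := 0) (by decide) hT h1 h2T hh (by decide) (by decide)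
    · exact fun hh => h.excl (u := 2) (v := 1) (by decide) hT h1 h2T hh (by decide) (by decide)
    · exact fun hh => h.excl (u := 2) (v := 3) (by decide) hT h3 h2T hh (by decide) (by decide)
    · exact fun hh => h.excl (u := 2) (v := 8) (by decide) hT c3 h2T hh (by decide) (by decide)
    · exact fun hh => h.excl (u := 2) (v := 9) (by decide) hT c3 h2T hh (by decide) (by decide)
    · exact fun hh => h.excl (u := 4) (v := 5) (by decide) hT c1 hh.1 hh.2 (by decide) (by decide)
    · exact fun hh => h.excl (u := 6) (v := 7) (by decide) hT c2 hh.1 hh.2 (by decide) (by decide)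
  have hnot : ¬ (({2, 5, 6} : Finset (Fin 10)) ∈ A ∧ ({2, 5, 7} : Finset (Fin 10)) ∈ A) := by
    rintro ⟨g1, g2⟩
    rcases h.complete a2 a3 g1 (v := 5) (by decide) (by decide) (by decide) (by decide)
      (by decide) (by decide) g2 (by decide) with e | e | e <;> revert e <;> decide
  -- there are exactly three of them
  have hd := h.dA 2
  have hsub : A.filter (fun T => (2 : Fin 10) ∈ T) ⊆
      {{2, 4, 6}, {2, 4, 7}, {2, 5, 6}, {2, 5, 7}} := by
    intro T hT
    rw [Finset.mem_filter] at hT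
    simpa using hopt T hT.1 hT.2
  have key : ({2, 4, 6} : Finset (Fin 10)) ∈ A ∧ ({2, 4, 7} : Finset (Fin 10)) ∈ A ∧
      (({2, 5, 6} : Finset (Fin 10)) ∈ A ∨ ({2, 5, 7} : Finset (Fin 10)) ∈ A) := by
    by_contra hcon
    have hle : (A.filter (fun T => (2 : Fin 10) ∈ T)).card ≤ 2 := by
      by_cases g3 : ({2, 5, 6} : Finset (Fin 10)) ∈ A
      · have g4 : ({2, 5, 7} : Finset (Fin 10)) ∉ A := fun g => hnot ⟨g3, g⟩
        by_cases g1 : ({2, 4, 6} : Finset (Fin 10)) ∈ A
        · have g2 : ({2, 4, 7} : Finset (Fin 10)) ∉ A := fun g => hcon ⟨g1, g, Or.inl g3⟩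
          refine (Finset.card_le_card (t := {{2, 4, 6}, {2, 5, 6}}) ?_).trans Finset.card_le_two
          intro T hT
          have hT' := hT
          rw [Finset.mem_filter] at hT'
          rcases hopt T hT'.1 hT'.2 with e | e | e | e
          · simp [e]
          · exact absurd (e ▸ hT'.1) g2
          · simp [e]
          · exact absurd (e ▸ hT'.1) g4
        · refine (Finset.card_le_card (t := {{2, 4, 7}, {2, 5, 6}}) ?_).trans Finset.card_le_two
          intro T hT
          have hT' := hT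
          rw [Finset.mem_filter] at hT'
          rcases hopt T hT'.1 hT'.2 with e | e | e | e
          · exact absurd (e ▸ hT'.1) g1
          · simp [e]
          · simp [e]
          · exact absurd (e ▸ hT'.1) g4
      · by_cases g4 : ({2, 5, 7} : Finset (Fin 10)) ∈ A
        · by_cases g1 : ({2, 4, 6} : Finset (Fin 10)) ∈ A
          · have g2 : ({2, 4, 7} : Finset (Fin 10)) ∉ A := fun g => hcon ⟨g1, g, Or.inr g4⟩
            refine (Finset.card_le_card (t := {{2, 4, 6}, {2, 5, 7}}) ?_).trans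
              Finset.card_le_two
            intro T hT
            have hT' := hT
            rw [Finset.mem_filter] at hT'
            rcases hopt T hT'.1 hT'.2 with e | e | e | e
            · simp [e]
            · exact absurd (e ▸ hT'.1) g2
            · exact absurd (e ▸ hT'.1) g3
            · simp [e]
          · refine (Finset.card_le_card (t := {{2, 4, 7}, {2, 5, 7}}) ?_).trans
              Finset.card_le_two
            intro T hT
            have hT' := hT
            rw [Finset.mem_filter] at hT'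
            rcases hopt T hT'.1 hT'.2 with e | e | e | e
            · exact absurd (e ▸ hT'.1) g1
            · simp [e]
            · exact absurd (e ▸ hT'.1) g3
            · simp [e]
        · refine (Finset.card_le_card (t := {{2, 4, 6}, {2, 4, 7}}) ?_).trans
            Finset.card_le_two
          intro T hT
          have hT' := hT
          rw [Finset.mem_filter] at hT'
          rcases hopt T hT'.1 hT'.2 with e | e | e | e
          · simp [e]
          · simp [e]
          · exact absurd (e ▸ hT'.1) g3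
          · exact absurd (e ▸ hT'.1) g4
    omega
  obtain ⟨k1, k2, k3 | k3⟩ := key
  · obtain ⟨S, hS, s7, s5⟩ := h.singles (v := 2) (p := 4) (q := 6) (r := 7) (s := 5)
      k1 k2 (memEq k3 (by decide)) (by decide) (by decide)
    exact h.excl (u := 7) (v := 5) (by decide) a3 hS (by decide) (by decide) s7 s5
  · rcases h.complete a3 k2 k3 (v := 7) (by decide) (by decide) (by decide) (by decide)
      (by decide) (by decide) hP p7 with e | e | e <;> rw [e] at p1 <;> revert p1 <;> decide

end Ten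

section Combine

variable {V : Type} [Fintype V] [DecidableEq V] {A B : Finset (Finset V)}

/-- a surjection from `Fin 10` as an equivalence -/
noncomputable def listEquiv (hc : Fintype.card V = 10) (g : Fin 10 → V)
    (hg : Function.Surjective g) : Fin 10 ≃ V :=
  Equiv.ofBijective g ((Fintype.bijective_iff_surjective_and_card g).mpr
    ⟨hg, by rw [hc, Fintype.card_fin]⟩)

lemma listEquiv_apply (hc : Fintype.card V = 10) (g : Fin 10 → V)
    (hg : Function.Surjective g) (i : Fin 10) : listEquiv hc g hg i = g i := rfl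

lemma mem_pull3 {e : Fin 10 ≃ V} {A : Finset (Finset V)} {a b c : Fin 10}
    (h : {e a, e b, e c} ∈ A) : {a, b, c} ∈ pull e A := by
  rw [mem_pull, Finset.map_insert, Finset.map_insert, Finset.map_singleton]
  exact h

lemma caseII (h : Sys A B) (g : Fin 10 → V) (hg : Function.Surjective g)
    (h1 : {g 0, g 1, g 2} ∈ B) (h2 : {g 0, g 1, g 4} ∈ B) (h3 : {g 0, g 2, g 3} ∈ B)
    (a2 : {g 0, g 5, g 9} ∈ A) (a3 : {g 0, g 5, g 7} ∈ A)
    (c1 : {g 5, g 1, g 4} ∈ B) (c2 : {g 6, g 7, g 3} ∈ B) (c3 : {g 8, g 9, g 2} ∈ B) : False :=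
  caseII10 (h.pull (listEquiv h.card10 g hg)) (mem_pull3 h1) (mem_pull3 h2) (mem_pull3 h3)
    (mem_pull3 a2) (mem_pull3 a3) (mem_pull3 c1) (mem_pull3 c2) (mem_pull3 c3)

lemma col1_options : ∀ T : Finset (Fin 10), T.card = 3 → 5 ∈ T → 0 ∉ T → 6 ∉ T → 7 ∉ T →
    8 ∉ T → 9 ∉ T → T = {5, 1, 2} ∨ T = {5, 1, 3} ∨ T = {5, 1, 4} ∨ T = {5, 2, 3} ∨
      T = {5, 2, 4} ∨ T = {5, 3, 4} := by
  decide +kernel

set_option synthInstance.maxSize 1000 in
set_option synthInstance.maxHeartbeats 400000 in
lemma col2_options : ∀ T : Finset (Fin 10), T.card = 3 → 6 ∈ T → 7 ∈ T → 0 ∉ T → 5 ∉ T →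
    8 ∉ T → 9 ∉ T → T = {6, 7, 1} ∨ T = {6, 7, 2} ∨ T = {6, 7, 3} ∨ T = {6, 7, 4} := by
  decide +kernel

set_option synthInstance.maxSize 1000 in
set_option synthInstance.maxHeartbeats 400000 in
lemma col3_options : ∀ T : Finset (Fin 10), T.card = 3 → 8 ∈ T → 9 ∈ T → 0 ∉ T → 5 ∉ T →
    6 ∉ T → 7 ∉ T → T = {8, 9, 1} ∨ T = {8, 9, 2} ∨ T = {8, 9, 3} ∨ T = {8, 9, 4} := by
  decide +kernel

lemma ten_contra {A B : Finset (Finset (Fin 10))} (h : Sys A B) (h1 : {0, 1, 2} ∈ B)
    (h2 : {0, 1, 4} ∈ B) (h3 : {0, 2, 3} ∈ B) (a1 : {0, 6, 8} ∈ A) (a2 : {0, 5, 9} ∈ A)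
    (a3 : {0, 5, 7} ∈ A) {R C1 C2 C3 : Finset (Fin 10)} (hR : R ∈ A) (r3 : 3 ∈ R) (r4 : 4 ∈ R)
    (c1 : C1 ∈ B) (c2 : C2 ∈ B) (c3 : C3 ∈ B) (m5 : 5 ∈ C1) (m6 : 6 ∈ C2) (m7 : 7 ∈ C2)
    (m8 : 8 ∈ C3) (m9 : 9 ∈ C3) (n1 : 0 ∉ C1) (n2 : 0 ∉ C2) (n3 : 0 ∉ C3)
    (d12 : Disjoint C1 C2) (d13 : Disjoint C1 C3) (d23 : Disjoint C2 C3) : False := by
  have o1 := col1_options C1 (h.cB _ c1) m5 n1 (Finset.disjoint_right.mp d12 m6)
    (Finset.disjoint_right.mp d12 m7) (Finset.disjoint_right.mp d13 m8)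
    (Finset.disjoint_right.mp d13 m9)
  have o2 := col2_options C2 (h.cB _ c2) m6 m7 n2 (Finset.disjoint_left.mp d12 m5)
    (Finset.disjoint_right.mp d23 m8) (Finset.disjoint_right.mp d23 m9)
  have o3 := col3_options C3 (h.cB _ c3) m8 m9 n3 (Finset.disjoint_left.mp d13 m5)
    (Finset.disjoint_left.mp d23 m6) (Finset.disjoint_left.mp d23 m7)
  rcases o1 with e1 | e1 | e1 | e1 | e1 | e1
  · exact caseI10 h h1 h2 h3 a1 a2 a3 (e1 ▸ c1)
  · -- 1 and 3 joined in `B`: the points 0,1,2,3 are pairwise joined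
    subst e1
    refine h.noK4 {0, 1, 2, 3} (by decide) ?_
    intro x hx y hy hxy
    simp only [Finset.mem_insert, Finset.mem_singleton] at hx hy
    rcases hx with rfl | rfl | rfl | rfl <;> rcases hy with rfl | rfl | rfl | rfl <;>
      first
      | exact absurd rfl hxy
      | exact ⟨_, h1, by decide, by decide⟩
      | exact ⟨_, h3, by decide, by decide⟩
      | exact ⟨_, c1, by decide, by decide⟩
  · subst e1
    rcases o2 with e2 | e2 | e2 | e2 <;> rcases o3 with e3 | e3 | e3 | e3 <;> subst e2 <;>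
      subst e3
    all_goals first
      | (exfalso; revert d12; decide)
      | (exfalso; revert d13; decide)
      | (exfalso; revert d23; decide)
      | skip
    · exact caseII h ![0, 1, 2, 3, 4, 5, 8, 9, 6, 7] (by decide) h1 h2 h3 a3 a2 c1 c3 c2
    · exact caseII h ![0, 1, 2, 3, 4, 5, 6, 7, 8, 9] (by decide) h1 h2 h3 a2 a3 c1 c2 c3
  · subst e1
    have h1' : ({0, 2, 1} : Finset (Fin 10)) ∈ B := memEq h1 (by decide)
    rcases o2 with e2 | e2 | e2 | e2 <;> rcases o3 with e3 | e3 | e3 | e3 <;> subst e2 <;>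
      subst e3
    all_goals first
      | (exfalso; revert d12; decide)
      | (exfalso; revert d13; decide)
      | (exfalso; revert d23; decide)
      | skip
    · exact caseII h ![0, 2, 1, 4, 3, 5, 8, 9, 6, 7] (by decide) h1' h3 h2 a3 a2 c1 c3 c2
    · exact caseII h ![0, 2, 1, 4, 3, 5, 6, 7, 8, 9] (by decide) h1' h3 h2 a2 a3 c1 c2 c3
  · subst e1
    refine h.noK4 {0, 1, 2, 4} (by decide) ?_
    intro x hx y hy hxy
    simp only [Finset.mem_insert, Finset.mem_singleton] at hx hy
    rcases hx with rfl | rfl | rfl | rfl <;> rcases hy with rfl | rfl | rfl | rfl <;>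
      first
      | exact absurd rfl hxy
      | exact ⟨_, h1, by decide, by decide⟩
      | exact ⟨_, h2, by decide, by decide⟩
      | exact ⟨_, c1, by decide, by decide⟩
  · subst e1
    exact h.excl (u := 3) (v := 4) (by decide) hR c1 r3 r4 (by decide) (by decide)

lemma no_type (h : Sys A B) {u : V} (hA : OneCo A B u) (hB : TwoCo B A u) : False := by
  obtain ⟨x, y1, y1', y2, y2', C1, C2, C3, a1, a2, a3, c1, c2, c3, m5, m6, m7, m8, m9,
    n1, n2, n3, d12, d13, d23, hnA⟩ := hA
  obtain ⟨z1, z2, w, w', b1, b2, b3, ⟨R, hR, r3, r4⟩, hnB⟩ := hB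
  set g : Fin 10 → V := ![u, z1, z2, w, w', x, y1, y1', y2, y2'] with hgdef
  have hg : Function.Surjective g := by
    intro v
    by_cases hvu : v = u
    · exact ⟨0, hvu.symm⟩
    · rcases h.cov u v (fun e => hvu e.symm) with hc | hc
      · rcases hnA v (mem_nb.mpr ⟨hvu, hc⟩) with e | e | e | e | e
        · exact ⟨5, e.symm⟩
        · exact ⟨6, e.symm⟩
        · exact ⟨7, e.symm⟩
        · exact ⟨8, e.symm⟩
        · exact ⟨9, e.symm⟩
      · rcases hnB v (mem_nb.mpr ⟨hvu, hc⟩) with e | e | e | e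
        · exact ⟨1, e.symm⟩
        · exact ⟨2, e.symm⟩
        · exact ⟨3, e.symm⟩
        · exact ⟨4, e.symm⟩
  set e := listEquiv h.card10 g hg with he
  have hmap : ∀ C : Finset V, (C.map e.symm.toEmbedding).map e.toEmbedding = C := by
    intro C
    rw [Finset.map_map]
    ext y
    simp
  have hback : ∀ C : Finset V, ∀ i : Fin 10, i ∈ C.map e.symm.toEmbedding ↔ g i ∈ C := by
    intro C i
    rw [Finset.mem_map_equiv]
    rfl
  have hdis : ∀ C D : Finset V, Disjoint C D →
      Disjoint (C.map e.symm.toEmbedding) (D.map e.symm.toEmbedding) := by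
    intro C D hCD
    exact (Finset.disjoint_map _).mpr hCD
  refine ten_contra (h.pull e) (R := R.map e.symm.toEmbedding) (C1 := C1.map e.symm.toEmbedding)
    (C2 := C2.map e.symm.toEmbedding) (C3 := C3.map e.symm.toEmbedding)
    (mem_pull3 b1) (mem_pull3 b2) (mem_pull3 b3) (mem_pull3 a1) (mem_pull3 a2) (mem_pull3 a3)
    (mem_pull.mpr ?_) ((hback _ _).mpr r3) ((hback _ _).mpr r4) (mem_pull.mpr ?_)
    (mem_pull.mpr ?_) (mem_pull.mpr ?_) ((hback _ _).mpr m5) ((hback _ _).mpr m6)
    ((hback _ _).mpr m7) ((hback _ _).mpr m8) ((hback _ _).mpr m9)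
    (fun hh => n1 ((hback _ _).mp hh)) (fun hh => n2 ((hback _ _).mp hh))
    (fun hh => n3 ((hback _ _).mp hh)) (hdis _ _ d12) (hdis _ _ d13) (hdis _ _ d23)
  · rw [hmap]; exact hR
  · rw [hmap]; exact c1
  · rw [hmap]; exact c2
  · rw [hmap]; exact c3

/-- There is no such pair of triple systems. -/
theorem no_sys (h : Sys A B) : False := by
  have hne : Nonempty V := by
    rw [← Fintype.card_pos_iff, h.card10]
    norm_num
  obtain ⟨u⟩ := hne
  rcases h.types u with ⟨h1, h2⟩ | ⟨h1, h2⟩
  · exact no_type h h1 h2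
  · exact no_type h.symm h1 h2

end Combine

end Pool.Agent.Lib.MP_0bba66_co
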